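import Pool.Agent.helper78.NLS.Spec
import Pool.Agent.helper64.NLS.ROT

set_option autoImplicit false

open Complex Metric Set Filter Topology MeasureTheory MPS
open Pool.Agent.helper98.ILF Pool.Agent.helper16.Multibrot
open scoped Convolution

noncomputable section

namespace NLS

/-- the bump function of radius `1/(k+1)`. -/
def MOLB_b (k : ℕ) : ContDiffBump (0 : ℂ) where
  rIn := 1 / (2 * ((k : ℝ) + 1))
  rOut := 1 / ((k : ℝ) + 1)
  rIn_pos := by positivity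
  rIn_lt_rOut := by
    apply one_div_lt_one_div_of_lt (by positivity)
    have : (0 : ℝ) ≤ k := Nat.cast_nonneg k
    linarith

/-- the mollification. -/
def MOLB_M (μ : ℂ → ℂ) (k : ℕ) (z : ℂ) : ℂ := ((MOLB_b k).normed volume ⋆[ContinuousLinearMap.lsmul ℝ ℝ, volume] μ) z

lemma MOLB_eq (μ : ℂ → ℂ) (k : ℕ) (z : ℂ) : MOLB_M μ k z = ∫ t : ℂ, (MOLB_b k).normed volume t • μ (z - t) := by
  simp only [MOLB_M, convolution_def, ContinuousLinearMap.lsmul_apply]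

lemma MOLB_norm (μ : ℂ → ℂ) (h : ∀ z, ‖μ z‖ ≤ 1) (k : ℕ) (z : ℂ) : ‖MOLB_M μ k z‖ ≤ 1 := by
  rw [MOLB_eq]
  have h1 : ‖∫ t : ℂ, (MOLB_b k).normed volume t • μ (z - t)‖ ≤ ∫ t : ℂ, (MOLB_b k).normed volume t := by
    apply norm_integral_le_of_norm_le (MOLB_b k).integrable_normed
    refine ae_of_all _ fun t => ?_
    rw [norm_smul, Real.norm_of_nonneg ((MOLB_b k).nonneg_normed t)]
    exact mul_le_of_le_one_right ((MOLB_b k).nonneg_normed t) (h _)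
  rwa [(MOLB_b k).integral_normed] at h1

lemma MOLB_supp (K : Set ℂ) (μ : ℂ → ℂ) (h : ∀ z, μ z ≠ 0 → z ∈ K) (k : ℕ) (z : ℂ) (hz : MOLB_M μ k z ≠ 0) :
    ∃ w ∈ K, ‖z - w‖ < 1 / ((k : ℝ) + 1) := by
  by_contra hcon
  push Not at hcon
  apply hz
  rw [MOLB_eq]
  apply integral_eq_zero_of_ae
  refine ae_of_all _ fun t => ?_
  simp only [Pi.zero_apply, smul_eq_zero]
  by_cases h1 : μ (z - t) = 0
  · exact Or.inr h1
  · left
    have h2 := hcon (z - t) (h _ h1)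
    rw [sub_sub_cancel] at h2
    by_contra h3
    have h4 : t ∈ Function.support ((MOLB_b k).normed volume) := h3
    rw [(MOLB_b k).support_normed_eq] at h4
    rw [mem_ball_zero_iff] at h4
    have h5 : (MOLB_b k).rOut = 1 / ((k : ℝ) + 1) := rfl
    rw [h5] at h4
    exact absurd h4 (not_lt.mpr h2)

lemma MOLB_loc (μ : ℂ → ℂ) (hm : Measurable μ) (h : ∀ z, ‖μ z‖ ≤ 1) : LocallyIntegrable μ volume := by
  refine (locallyIntegrable_const (1 : ℝ)).mono hm.aestronglyMeasurable (ae_of_all _ fun z => ?_)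
  simpa using h z

lemma MOLB_smooth (μ : ℂ → ℂ) (hm : Measurable μ) (h : ∀ z, ‖μ z‖ ≤ 1) (k : ℕ) : Sm (MOLB_M μ k) := by
  unfold Sm MOLB_M
  exact (MOLB_b k).hasCompactSupport_normed.contDiff_convolution_left _ (MOLB_b k).contDiff_normed (MOLB_loc μ hm h)

lemma MOLB_lim (μ : ℂ → ℂ) (hm : Measurable μ) (h : ∀ z, ‖μ z‖ ≤ 1) : ∀ᵐ z : ℂ, Tendsto (fun k => MOLB_M μ k z) atTop (𝓝 (μ z)) := by
  apply ContDiffBump.ae_convolution_tendsto_right_of_locallyIntegrable (K := 2)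
  · exact tendsto_one_div_add_atTop_nhds_zero_nat
  · refine Eventually.of_forall fun k => ?_
    change 1 / ((k : ℝ) + 1) ≤ 2 * (1 / (2 * ((k : ℝ) + 1)))
    apply le_of_eq
    field_simp
  · exact MOLB_loc μ hm h

lemma MOLB_ae (n : ℕ) {p : ℂ → Prop} (hp : ∀ᵐ z : ℂ, p z) : ∀ᵐ z : ℂ, p (om n * z) := by
  let a : Circle := ⟨om n, mem_sphere_zero_iff_norm.mpr (ROT_norm_om n)⟩
  have h := (rotation a).measurePreserving.quasiMeasurePreserving.ae hp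
  simpa [rotation_apply, a] using h

lemma MOLB_aei (n : ℕ) {p : ℂ → Prop} (hp : ∀ᵐ z : ℂ, p z) (i : ℕ) : ∀ᵐ z : ℂ, p (om n ^ i * z) := by
  induction i with
  | zero => simpa using hp
  | succ i ih =>
    have := MOLB_ae n ih
    filter_upwards [this] with z hz
    rwa [← mul_assoc, ← pow_succ] at hz

lemma MOLB_mui (n : ℕ) (μ : ℂ → ℂ) (hs : ∀ᵐ z : ℂ, μ (om n * z) = om n ^ 2 * μ z) (i : ℕ) :
    ∀ᵐ z : ℂ, μ (om n ^ i * z) = om n ^ (2 * i) * μ z := by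
  induction i with
  | zero => simp
  | succ i ih =>
    filter_upwards [ih, MOLB_aei n hs i] with z h1 h2
    rw [pow_succ', mul_assoc, h2, h1, ← mul_assoc, ← pow_add]
    congr 2
    ring

lemma MOLB_pow (n : ℕ) (hn : 1 ≤ n) : om n ^ n = 1 := by
  unfold om
  rw [← Complex.exp_nat_mul]
  have : (n : ℂ) ≠ 0 := by exact_mod_cast (by omega : n ≠ 0)
  rw [mul_div_cancel₀ _ this, Complex.exp_two_pi_mul_I]

lemma MOLB_ne (n : ℕ) : om n ≠ 0 := by
  intro h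
  have := ROT_norm_om n
  rw [h, norm_zero] at this
  exact zero_ne_one this

/-- the symmetric mollification. -/
def MOLB_m (n : ℕ) (μ : ℂ → ℂ) (k : ℕ) (z : ℂ) : ℂ :=
  (n : ℂ)⁻¹ * ∑ i ∈ Finset.range n, ((om n)⁻¹) ^ (2 * i) * MOLB_M μ k (om n ^ i * z)

lemma MOLB_K (n : ℕ) (K : Set ℂ) (hK : ∀ z, z ∈ K ↔ om n * z ∈ K) (i : ℕ) (w : ℂ) (hw : w ∈ K) : ((om n)⁻¹) ^ i * w ∈ K := by
  induction i with
  | zero => simpa using hw
  | succ i ih =>
    rw [hK, pow_succ', ← mul_assoc, ← mul_assoc, mul_inv_cancel₀ (MOLB_ne n), one_mul]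
    exact ih

lemma MOLB_msupp (n : ℕ) (K : Set ℂ) (μ : ℂ → ℂ) (hK : ∀ z, z ∈ K ↔ om n * z ∈ K) (h : ∀ z, μ z ≠ 0 → z ∈ K) (k : ℕ) (z : ℂ)
    (hz : MOLB_m n μ k z ≠ 0) : ∃ w ∈ K, ‖z - w‖ < 1 / ((k : ℝ) + 1) := by
  have h1 : ∑ i ∈ Finset.range n, ((om n)⁻¹) ^ (2 * i) * MOLB_M μ k (om n ^ i * z) ≠ 0 := by
    intro h0
    apply hz
    rw [MOLB_m, h0, mul_zero]
  obtain ⟨i, -, hi⟩ := Finset.exists_ne_zero_of_sum_ne_zero h1
  have h2 : MOLB_M μ k (om n ^ i * z) ≠ 0 := right_ne_zero_of_mul hi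
  obtain ⟨w, hw, hd⟩ := MOLB_supp K μ h k _ h2
  refine ⟨((om n)⁻¹) ^ i * w, MOLB_K n K hK i w hw, ?_⟩
  have h3 : z - ((om n)⁻¹) ^ i * w = ((om n)⁻¹) ^ i * (om n ^ i * z - w) := by
    rw [mul_sub, ← mul_assoc, ← mul_pow, inv_mul_cancel₀ (MOLB_ne n), one_pow, one_mul]
  rw [h3, norm_mul, norm_pow, norm_inv, ROT_norm_om, inv_one, one_pow, one_mul]
  exact hd

theorem MOLB : MOL_stmt := by
  intro n K μ hn hKc hKn hK hKb hm hb hs hsym
  have hn0 : (n : ℂ) ≠ 0 := by exact_mod_cast (by omega : n ≠ 0)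
  have hsu := fun k z hz => MOLB_msupp n K μ hK hs k z hz
  refine ⟨MOLB_m n μ, fun k => ⟨⟨?_, ?_⟩, ?_, ?_⟩, ?_, ?_⟩
  · -- smooth
    unfold Sm MOLB_m
    refine contDiff_const.mul (ContDiff.sum fun i _ => contDiff_const.mul ?_)
    have h1 : ContDiff ℝ (⊤ : ℕ∞) (fun z : ℂ => om n ^ i * z) := contDiff_const.mul contDiff_id
    exact (show ContDiff ℝ (⊤ : ℕ∞) (MOLB_M μ k) from MOLB_smooth μ hm hb k).comp h1
  · intro z hz
    by_contra hne
    obtain ⟨w, hw, hd⟩ := hsu k z hne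
    have h1 := hKb hw
    rw [mem_ball_zero_iff] at h1
    have h2 : (1 : ℝ) / ((k : ℝ) + 1) ≤ 1 := by
      rw [div_le_one (by positivity)]
      have : (0 : ℝ) ≤ k := Nat.cast_nonneg k
      linarith
    have h3 : ‖z‖ ≤ ‖z - w‖ + ‖w‖ := by
      calc ‖z‖ = ‖(z - w) + w‖ := by rw [sub_add_cancel]
        _ ≤ _ := norm_add_le _ _
    linarith
  · -- symmetry
    intro z
    unfold MOLB_m
    have h1 : ∀ i, ((om n)⁻¹) ^ (2 * i) * MOLB_M μ k (om n ^ i * (om n * z)) =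
        om n ^ 2 * (((om n)⁻¹) ^ (2 * (i + 1)) * MOLB_M μ k (om n ^ (i + 1) * z)) := by
      intro i
      have h0 : om n ^ 2 ≠ 0 := pow_ne_zero _ (MOLB_ne n)
      have h2 : ((om n)⁻¹) ^ (2 * (i + 1)) = ((om n)⁻¹) ^ (2 * i) * (om n ^ 2)⁻¹ := by
        rw [mul_add, pow_add, mul_one, inv_pow (om n) 2]
      have h3 : om n ^ i * (om n * z) = om n ^ (i + 1) * z := by rw [← mul_assoc, ← pow_succ]
      rw [h3, h2, ← mul_assoc, mul_comm (om n ^ 2), mul_assoc (((om n)⁻¹) ^ (2 * i)), inv_mul_cancel₀ h0, mul_one]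
    simp only [h1, ← Finset.mul_sum]
    have h2 : ∑ i ∈ Finset.range n, ((om n)⁻¹) ^ (2 * (i + 1)) * MOLB_M μ k (om n ^ (i + 1) * z) =
        ∑ i ∈ Finset.range n, ((om n)⁻¹) ^ (2 * i) * MOLB_M μ k (om n ^ i * z) := by
      have h3 := Finset.sum_range_succ (fun i => ((om n)⁻¹) ^ (2 * i) * MOLB_M μ k (om n ^ i * z)) n
      have h4 := Finset.sum_range_succ' (fun i => ((om n)⁻¹) ^ (2 * i) * MOLB_M μ k (om n ^ i * z)) n
      have h5 : ((om n)⁻¹) ^ (2 * n) * MOLB_M μ k (om n ^ n * z) = ((om n)⁻¹) ^ (2 * 0) * MOLB_M μ k (om n ^ 0 * z) := by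
        rw [MOLB_pow n hn, pow_zero, mul_comm 2 n, pow_mul, inv_pow, MOLB_pow n hn]
        simp
      rw [h3] at h4
      simp only [h5] at h4
      exact (add_right_cancel h4).symm
    rw [h2]
    ring
  · -- norm
    intro z
    unfold MOLB_m
    rw [norm_mul, norm_inv, Complex.norm_natCast]
    have h1 : ‖∑ i ∈ Finset.range n, ((om n)⁻¹) ^ (2 * i) * MOLB_M μ k (om n ^ i * z)‖ ≤ n := by
      calc ‖∑ i ∈ Finset.range n, ((om n)⁻¹) ^ (2 * i) * MOLB_M μ k (om n ^ i * z)‖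
          ≤ ∑ i ∈ Finset.range n, ‖((om n)⁻¹) ^ (2 * i) * MOLB_M μ k (om n ^ i * z)‖ := norm_sum_le _ _
        _ ≤ ∑ i ∈ Finset.range n, (1 : ℝ) := by
            apply Finset.sum_le_sum
            intro i _
            rw [norm_mul, norm_pow, norm_inv, ROT_norm_om, inv_one, one_pow, one_mul]
            exact MOLB_norm μ hb k _
        _ = n := by simp
    have h2 : (0 : ℝ) < n := by exact_mod_cast hn
    calc (n : ℝ)⁻¹ * ‖∑ i ∈ Finset.range n, ((om n)⁻¹) ^ (2 * i) * MOLB_M μ k (om n ^ i * z)‖ ≤ (n : ℝ)⁻¹ * n :=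
          mul_le_mul_of_nonneg_left h1 (by positivity)
      _ = 1 := inv_mul_cancel₀ h2.ne'
  · intro k z hz
    obtain ⟨w, hw, hd⟩ := hsu k z hz
    calc infDist z K ≤ dist z w := infDist_le_dist_of_mem hw
      _ = ‖z - w‖ := dist_eq_norm _ _
      _ ≤ _ := hd.le
  · -- limit
    have hl : ∀ᵐ z : ℂ, ∀ i ∈ Finset.range n, Tendsto (fun k => MOLB_M μ k (om n ^ i * z)) atTop (𝓝 (μ (om n ^ i * z))) := by
      rw [Finset.eventually_all]
      intro i _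
      exact MOLB_aei n (MOLB_lim μ hm hb) i
    have hl2 : ∀ᵐ z : ℂ, ∀ i ∈ Finset.range n, μ (om n ^ i * z) = om n ^ (2 * i) * μ z := by
      rw [Finset.eventually_all]
      intro i _
      exact MOLB_mui n μ hsym i
    filter_upwards [hl, hl2] with z h1 h2
    have h3 : μ z = (n : ℂ)⁻¹ * ∑ i ∈ Finset.range n, ((om n)⁻¹) ^ (2 * i) * μ (om n ^ i * z) := by
      have h4 : ∀ i ∈ Finset.range n, ((om n)⁻¹) ^ (2 * i) * μ (om n ^ i * z) = μ z := by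
        intro i hi
        rw [h2 i hi, ← mul_assoc, ← mul_pow, inv_mul_cancel₀ (MOLB_ne n), one_pow, one_mul]
      rw [Finset.sum_congr rfl h4, Finset.sum_const, Finset.card_range, nsmul_eq_mul, ← mul_assoc, inv_mul_cancel₀ hn0, one_mul]
    rw [h3]
    unfold MOLB_m
    refine tendsto_const_nhds.mul (tendsto_finsetSum _ fun i hi => tendsto_const_nhds.mul (h1 i hi))

end NLS
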