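import Pool.Agent.helper78.NLS.ISO
import Pool.Agent.helper78.NLS.MOL
import Pool.Agent.helper64.NLS.ROT
import Pool.Agent.helper1.NLS.LIO
import Pool.Agent.helper11.NLS.PSP
import Pool.Agent.helper16.NLS.ALG
import Pool.Agent.helper21.NLS.CTP
import Pool.Agent.helper26.NLS.HOL
import Pool.Agent.helper3.NLS.CTG
import Pool.Agent.helper31.NLS.FEQ
import Pool.Agent.helper41.NLS.ERR
import Pool.Agent.helper55.NLS.SHK
import Pool.Agent.helper62.NLS.REP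
import Pool.Agent.helper63.NLS.PCB
import Pool.Agent.helper65.NLS.L2C
import Pool.Agent.helper70.NLS.OFS
import Pool.Agent.helper74.NLS.EPS
import Pool.Agent.helper82.NLS.LBZ
import Pool.Agent.helper92.NLS.DEL
import Pool.Agent.helper95.NLS.CTL
import Pool.Agent.helper97.NLS.CHV
import Pool.Agent.helper98.NLS.CTS
import Pool.Agent.helper43.MP.MCV
import Pool.Agent.helper84.BR.CPF

/-!
# Project nls: (MP_70a088_an): assembly
-/

set_option autoImplicit false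

open Complex Metric Set Filter Topology MeasureTheory MPS
open Pool.Agent.helper98.ILF Pool.Agent.helper16.Multibrot

noncomputable section

namespace NLS

theorem Z_ALG : ALG_stmt := ALG
theorem Z_CTS : CTS_stmt := CTS
theorem Z_CTP : CTP_stmt := CTP Z_ALG Z_CTS BR.CPF
theorem Z_CTG : CTG_stmt := CTG Z_ALG Z_CTS
theorem Z_CTL : CTL_stmt := CTL
theorem Z_ISO : ISO_stmt := ISO Z_ALG Z_CTS Z_CTP Z_CTG
theorem Z_LIO : LIO_stmt := LIO
theorem Z_CHV : CHV_stmt := CHV MPS.MCV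
theorem Z_PCB : PCB_stmt := PCB
theorem Z_HOL : HOL_stmt := HOL
theorem Z_SHK : SHK_stmt := SHK
theorem Z_OFS : OFS_stmt := OFS Z_CTL Z_CTS
theorem Z_ROT : ROT_stmt := ROT
theorem Z_MOL : MOL_stmt := MOLB
theorem Z_REP : REP_stmt := REP Z_ALG Z_CTS Z_CTP Z_CTG Z_ROT Z_LIO
theorem Z_PSP : PSP_stmt := PSP Z_ALG Z_CTS Z_CTP Z_CTG Z_ISO Z_ROT
theorem Z_LBZ : LBZ_stmt := LBZ Z_ALG Z_PSP
theorem Z_ERR : ERR_stmt := ERR Z_ALG Z_PSP Z_PCB Z_LBZ Z_REP Z_ISO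
theorem Z_L2C : L2C_stmt := L2C Z_ALG Z_CTS Z_PSP Z_ISO
theorem Z_DEL : DEL_stmt := DEL Z_L2C Z_CHV Z_ALG Z_PSP
theorem Z_EPS : EPS_stmt := EPS Z_ERR Z_DEL

/-- THE FUNCTIONAL EQUATION, no hypotheses. -/
theorem FEQ_all : FEQ_stmt :=
  FEQ Z_MOL Z_PSP Z_PCB Z_ERR Z_L2C Z_EPS Z_OFS Z_CTL Z_HOL Z_SHK Z_CTS Z_ISO

end NLS
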