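import Pool.Agent.helper78.NLS.Spec

set_option autoImplicit false

open Complex Metric Set Filter Topology MeasureTheory MPS
open Pool.Agent.helper98.ILF Pool.Agent.helper16.Multibrot

noncomputable section

namespace NLS

/-- functions of size `(1 + ‖z‖)⁻³` are integrable -/
lemma ISO_int (f : ℂ → ℂ) (C : ℝ) (hf : Continuous f) (hb : ∀ z, ‖f z‖ ≤ C / (1 + ‖z‖) ^ 3) : Integrable f volume := by
  have h1 : Integrable (fun z : ℂ => (1 + ‖z‖) ^ (-(3 : ℝ))) volume := by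
    apply integrable_one_add_norm
    rw [Complex.finrank_real_complex]
    norm_num
  refine (h1.const_mul C).mono' hf.aestronglyMeasurable (ae_of_all _ fun z => ?_)
  refine (hb z).trans (le_of_eq ?_)
  have h2 : 0 ≤ 1 + ‖z‖ := by positivity
  rw [Real.rpow_neg h2, div_eq_mul_inv]
  congr 2
  exact_mod_cast (Real.rpow_natCast (1 + ‖z‖) 3).symm

/-- decay -/
def ISO_D (u : ℂ → ℂ) (k : ℕ) : Prop := ∃ C : ℝ, 0 ≤ C ∧ ∀ z, ‖u z‖ ≤ C / (1 + ‖z‖) ^ k

lemma ISO_D_of_compact {u : ℂ → ℂ} (hu : Continuous u) {R : ℝ} (hR : 0 < R) (hs : ∀ z, R ≤ ‖z‖ → u z = 0) (k : ℕ) : ISO_D u k := by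
  obtain ⟨B, hB⟩ := (isCompact_closedBall (0 : ℂ) R).exists_bound_of_continuousOn hu.continuousOn
  have hB0 : 0 ≤ B := (norm_nonneg _).trans (hB 0 (by simp [hR.le]))
  refine ⟨B * (1 + R) ^ k, by positivity, fun z => ?_⟩
  by_cases hz : ‖z‖ ≤ R
  · have h1 := hB z (by simpa using hz)
    refine h1.trans ?_
    rw [le_div_iff₀ (by positivity)]
    have : (1 + ‖z‖) ^ k ≤ (1 + R) ^ k := pow_le_pow_left₀ (by positivity) (by linarith) k
    exact mul_le_mul_of_nonneg_left this hB0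
  · rw [hs z (not_le.mp hz).le, norm_zero]
    positivity

lemma ISO_D.add {u v : ℂ → ℂ} {k : ℕ} (hu : ISO_D u k) (hv : ISO_D v k) : ISO_D (fun z => u z + v z) k := by
  obtain ⟨A, hA, h1⟩ := hu
  obtain ⟨B, hB, h2⟩ := hv
  refine ⟨A + B, by positivity, fun z => ?_⟩
  calc ‖u z + v z‖ ≤ ‖u z‖ + ‖v z‖ := norm_add_le _ _
    _ ≤ A / (1 + ‖z‖) ^ k + B / (1 + ‖z‖) ^ k := add_le_add (h1 z) (h2 z)
    _ = (A + B) / (1 + ‖z‖) ^ k := by ring

lemma ISO_D.mul {u v : ℂ → ℂ} {k l m : ℕ} (hm : m ≤ k + l) (hu : ISO_D u k) (hv : ISO_D v l) : ISO_D (fun z => u z * v z) m := by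
  obtain ⟨A, hA, h1⟩ := hu
  obtain ⟨B, hB, h2⟩ := hv
  refine ⟨A * B, by positivity, fun z => ?_⟩
  calc ‖u z * v z‖ = ‖u z‖ * ‖v z‖ := norm_mul _ _
    _ ≤ A / (1 + ‖z‖) ^ k * (B / (1 + ‖z‖) ^ l) := mul_le_mul (h1 z) (h2 z) (norm_nonneg _) (by positivity)
    _ = A * B / (1 + ‖z‖) ^ (k + l) := by rw [div_mul_div_comm, ← pow_add]
    _ ≤ A * B / (1 + ‖z‖) ^ m := by
        apply div_le_div_of_nonneg_left (by positivity) (by positivity)
        exact pow_le_pow_right₀ (by linarith [norm_nonneg z]) hm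

lemma ISO_D.mono {u : ℂ → ℂ} {k m : ℕ} (hm : m ≤ k) (hu : ISO_D u k) : ISO_D u m := by
  obtain ⟨A, hA, h1⟩ := hu
  refine ⟨A, hA, fun z => (h1 z).trans ?_⟩
  apply div_le_div_of_nonneg_left (by positivity) (by positivity)
  exact pow_le_pow_right₀ (by linarith [norm_nonneg z]) hm

lemma ISO_D.const_mul {u : ℂ → ℂ} {k : ℕ} (a : ℂ) (hu : ISO_D u k) : ISO_D (fun z => a * u z) k := by
  obtain ⟨A, hA, h1⟩ := hu
  refine ⟨‖a‖ * A, by positivity, fun z => ?_⟩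
  rw [norm_mul, mul_div_assoc]
  exact mul_le_mul_of_nonneg_left (h1 z) (norm_nonneg _)

lemma ISO_D.conj {u : ℂ → ℂ} {k : ℕ} (hu : ISO_D u k) : ISO_D (fun z => (starRingEnd ℂ) (u z)) k := by
  obtain ⟨A, hA, h1⟩ := hu
  exact ⟨A, hA, fun z => by simpa using h1 z⟩

lemma ISO_D.congr {u v : ℂ → ℂ} {k : ℕ} (hu : ISO_D u k) (h : ∀ z, v z = u z) : ISO_D v k := by
  obtain ⟨A, hA, h1⟩ := hu
  exact ⟨A, hA, fun z => by rw [h z]; exact h1 z⟩

lemma ISO_D.integrable {u : ℂ → ℂ} (hu : ISO_D u 3) (hc : Continuous u) : Integrable u volume := by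
  obtain ⟨A, _, h1⟩ := hu
  exact ISO_int u A hc h1

lemma ISO_f1 (u : ℂ → ℂ) (z : ℂ) : fderiv ℝ u z 1 = dd u z + db u z := by
  simp only [dd, db]; ring

lemma ISO_fI (u : ℂ → ℂ) (z : ℂ) : fderiv ℝ u z I = I * (dd u z - db u z) := by
  simp only [dd, db]
  linear_combination (fderiv ℝ u z I) * I_mul_I

lemma ISO_cont {u : ℂ → ℂ} (hu : Sm u) : Continuous u := ContDiff.continuous hu

lemma ISO_diff {u : ℂ → ℂ} (hu : Sm u) : Differentiable ℝ u := ContDiff.differentiable hu (by simp)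

lemma ISO_fd_cont {u : ℂ → ℂ} (hu : Sm u) (e : ℂ) : Continuous (fun z => fderiv ℝ u z e) := by
  have h1 : Continuous (fderiv ℝ u) := ContDiff.continuous_fderiv hu (by simp)
  exact h1.clm_apply continuous_const

/-- integration by parts, one direction -/
lemma ISO_ibp (u v : ℂ → ℂ) (hu : Sm u) (hv : Sm v) (e : ℂ) (h1 : ISO_D u 1) (h2 : ISO_D v 2)
    (h3 : ISO_D (fun z => fderiv ℝ u z e) 1) (h4 : ISO_D (fun z => fderiv ℝ v z e) 2) :
    Integrable (fun z => u z * fderiv ℝ v z e) ∧ Integrable (fun z => fderiv ℝ u z e * v z) ∧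
    ∫ z, u z * fderiv ℝ v z e = - ∫ z, fderiv ℝ u z e * v z := by
  have i1 : Integrable (fun z => u z * fderiv ℝ v z e) :=
    (ISO_D.mul (m := 3) (by norm_num) h1 h4).integrable ((ISO_cont hu).mul (ISO_fd_cont hv e))
  have i2 : Integrable (fun z => fderiv ℝ u z e * v z) :=
    (ISO_D.mul (m := 3) (by norm_num) h3 h2).integrable ((ISO_fd_cont hu e).mul (ISO_cont hv))
  have i3 : Integrable (fun z => u z * v z) :=
    (ISO_D.mul (m := 3) (by norm_num) h1 h2).integrable ((ISO_cont hu).mul (ISO_cont hv))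
  refine ⟨i1, i2, ?_⟩
  exact integral_mul_fderiv_eq_neg_fderiv_mul_of_integrable i2 i1 i3 (fun x _ => ISO_diff hu x) (fun x _ => ISO_diff hv x)

/-- integration by parts for `∂` and `∂̄` -/
lemma ISO_ibp2 (u v : ℂ → ℂ) (hu : Sm u) (hv : Sm v) (h1 : ISO_D u 1) (h2 : ISO_D v 2)
    (h3 : ISO_D (dd u) 1) (h3' : ISO_D (db u) 1) (h4 : ISO_D (dd v) 2) (h4' : ISO_D (db v) 2) :
    ∫ z, u z * dd v z = - ∫ z, dd u z * v z ∧ ∫ z, u z * db v z = - ∫ z, db u z * v z := by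
  have a1 : ISO_D (fun z => fderiv ℝ u z 1) 1 := (h3.add h3').congr (fun z => ISO_f1 u z)
  have a2 : ISO_D (fun z => fderiv ℝ u z I) 1 := by
    refine ((h3.add (h3'.const_mul (-1))).const_mul I).congr (fun z => ?_)
    rw [ISO_fI u z]; ring
  have b1 : ISO_D (fun z => fderiv ℝ v z 1) 2 := (h4.add h4').congr (fun z => ISO_f1 v z)
  have b2 : ISO_D (fun z => fderiv ℝ v z I) 2 := by
    refine ((h4.add (h4'.const_mul (-1))).const_mul I).congr (fun z => ?_)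
    rw [ISO_fI v z]; ring
  obtain ⟨c1, c2, c3⟩ := ISO_ibp u v hu hv 1 h1 h2 a1 b1
  obtain ⟨d1, d2, d3⟩ := ISO_ibp u v hu hv I h1 h2 a2 b2
  constructor
  · have e1 : ∫ z, u z * dd v z = (1 / 2 : ℂ) * (∫ z, u z * fderiv ℝ v z 1) - (I / 2) * ∫ z, u z * fderiv ℝ v z I := by
      rw [← integral_const_mul, ← integral_const_mul, ← integral_sub (c1.const_mul _) (d1.const_mul _)]
      congr 1
      ext z
      simp only [dd]; ring
    have e2 : ∫ z, dd u z * v z = (1 / 2 : ℂ) * (∫ z, fderiv ℝ u z 1 * v z) - (I / 2) * ∫ z, fderiv ℝ u z I * v z := by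
      rw [← integral_const_mul, ← integral_const_mul, ← integral_sub (c2.const_mul _) (d2.const_mul _)]
      congr 1
      ext z
      simp only [dd]; ring
    rw [e1, e2, c3, d3]; ring
  · have e1 : ∫ z, u z * db v z = (1 / 2 : ℂ) * (∫ z, u z * fderiv ℝ v z 1) + (I / 2) * ∫ z, u z * fderiv ℝ v z I := by
      rw [← integral_const_mul, ← integral_const_mul, ← integral_add (c1.const_mul _) (d1.const_mul _)]
      congr 1
      ext z
      simp only [db]; ring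
    have e2 : ∫ z, db u z * v z = (1 / 2 : ℂ) * (∫ z, fderiv ℝ u z 1 * v z) + (I / 2) * ∫ z, fderiv ℝ u z I * v z := by
      rw [← integral_const_mul, ← integral_const_mul, ← integral_add (c2.const_mul _) (d2.const_mul _)]
      congr 1
      ext z
      simp only [db]; ring
    rw [e1, e2, c3, d3]; ring

/-- from the integral of `k conj k` to the `L²` norm -/
lemma ISO_norm (k : ℂ → ℂ) (hk : MemLp k 2 volume) :
    ∫ z, k z * (starRingEnd ℂ) (k z) = (((∫ z, ‖k z‖ ^ 2 : ℝ)) : ℂ) ∧ eLpNorm k 2 volume = ENNReal.ofReal ((∫ z, ‖k z‖ ^ 2) ^ (2 : ℝ)⁻¹) := by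
  constructor
  · rw [← integral_complex_ofReal]
    congr 1
    ext z
    rw [Complex.mul_conj, Complex.normSq_eq_norm_sq]
  · rw [hk.eLpNorm_eq_integral_rpow_norm (by norm_num) (by norm_num)]
    simp

theorem ISO (hALG : ALG_stmt) (hCTS : CTS_stmt) (hCTP : CTP_stmt) (hCTG : CTG_stmt) : ISO_stmt := by
  intro R h hR hh
  obtain ⟨-, hA2, -, -, -, -, -, -, -, hA10⟩ := hALG
  obtain ⟨hdbh, hddh, hcont, hcs⟩ := hA10 R h hh
  obtain ⟨-, hC⟩ := hCTS
  obtain ⟨hsm, hdd, hdb, -, -⟩ := hC R h hh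
  have hdbg : ∀ z, db (Ct h) z = h z := hCTP R h hh
  -- second derivative
  obtain ⟨hsm2, hdd2, hdb2, -, -⟩ := hC R (dd h) hddh
  have hfun : dd (Ct h) = Ct (dd h) := funext hdd
  obtain ⟨C1, hC1, hg1⟩ := hCTG R h hR hh
  obtain ⟨C2, hC2, hg2⟩ := hCTG R (dd h) hR hddh
  -- decay
  have D1 : ISO_D (Ct h) 1 := ⟨C1, hC1, fun z => by simpa using (hg1 z).1⟩
  have D2 : ISO_D (dd (Ct h)) 2 := ⟨C1, hC1, fun z => (hg1 z).2⟩
  have D3 : ISO_D (dd (dd (Ct h))) 2 := by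
    rw [hfun]; exact ⟨C2, hC2, fun z => (hg2 z).2⟩
  have hdbdd : ∀ z, db (dd (Ct h)) z = dd h z := by
    intro z
    rw [hfun]
    exact hCTP R (dd h) hddh z
  have D4 : ISO_D (db (dd (Ct h))) 2 := by
    refine (ISO_D_of_compact (u := dd h) (ISO_cont hddh.sm) hR hddh.supp 2).congr hdbdd
  have Dh : ∀ k, ISO_D h k := fun k => ISO_D_of_compact (u := h) (ISO_cont hh.sm) hR hh.supp k
  have D5 : ISO_D (db (Ct h)) 1 := (Dh 1).congr hdbg
  have hsmk : Sm (dd (Ct h)) := (hA2 _ hsm).2.1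
  -- conj of k
  obtain ⟨-, -, -, ck1, ck2⟩ := hA2 _ hsmk
  obtain ⟨-, -, -, ch1, ch2⟩ := hA2 _ hh.sm
  have I1 := (ISO_ibp2 (Ct h) (fun z => (starRingEnd ℂ) (dd (Ct h) z)) hsm ck1 D1 D2.conj (D2.mono (by norm_num)) D5
    ((D4.conj).congr (fun z => (ck2 z).1)) ((D3.conj).congr (fun z => (ck2 z).2))).1
  have I2 := (ISO_ibp2 (Ct h) (fun z => (starRingEnd ℂ) (h z)) hsm ch1 D1 (Dh 2).conj (D2.mono (by norm_num)) D5
    (((ISO_D_of_compact (u := db h) (ISO_cont hdbh.sm) hR hdbh.supp 2).conj).congr (fun z => (ch2 z).1))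
    (((ISO_D_of_compact (u := dd h) (ISO_cont hddh.sm) hR hddh.supp 2).conj).congr (fun z => (ch2 z).2))).2
  have I3 : ∫ z, Ct h z * dd (fun z => (starRingEnd ℂ) (dd (Ct h) z)) z = ∫ z, Ct h z * db (fun z => (starRingEnd ℂ) (h z)) z := by
    congr 1
    ext z
    rw [(ck2 z).1, (ch2 z).2, hdbdd]
  have I4 : ∫ z, dd (Ct h) z * (starRingEnd ℂ) (dd (Ct h) z) = ∫ z, h z * (starRingEnd ℂ) (h z) := by
    have e1 : ∫ z, db (Ct h) z * (starRingEnd ℂ) (h z) = ∫ z, h z * (starRingEnd ℂ) (h z) := by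
      congr 1
      ext z
      rw [hdbg]
    rw [← e1]
    have := I1.symm.trans (I3.trans I2)
    exact neg_injective this
  -- MemLp
  have M1 : MemLp (dd (Ct h)) 2 volume := by
    rw [memLp_two_iff_integrable_sq_norm (ISO_cont hsmk).aestronglyMeasurable]
    have hi : Integrable (fun z => dd (Ct h) z * dd (Ct h) z) := (ISO_D.mul (m := 3) (by norm_num) D2 D2).integrable ((ISO_cont hsmk).mul (ISO_cont hsmk))
    refine hi.norm.congr (ae_of_all _ fun z => ?_)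
    simp only [norm_mul]
    ring
  have M2 : MemLp h 2 volume := hcont.memLp_of_hasCompactSupport hcs
  refine ⟨M2, M1, ?_⟩
  obtain ⟨n1, n2⟩ := ISO_norm _ M1
  obtain ⟨n3, n4⟩ := ISO_norm _ M2
  rw [n2, n4]
  have : (∫ z, ‖dd (Ct h) z‖ ^ 2 : ℝ) = ∫ z, ‖h z‖ ^ 2 := by
    have := n1.symm.trans (I4.trans n3)
    exact_mod_cast this
  rw [this]

end NLS
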