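import Pool.Agent.helper45.BR.Spec

/-!
# Project nls: (MP_70a088_an): formal quasiconformal deformations, the analytic part

Page: /team-store/MP_70a088_NLPLAN_lead.md, sections 1-3, with the simplification of helper78: only smooth functions and one isometry.

THEOREM (`FEQ_stmt`). Let `μ` be a bounded invariant Beltrami form of `f z = z ^ n + c`, supported on the compact set `K = filled n c`. There are functions `ψ j`, holomorphic on `Kᶜ`, and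
numbers `a j` with `ψ 0 = id`, `a 0 = c`, `‖ψ j z‖ ≤ M / dist(z,K)` (`j ≥ 1`), `ψ 1 = -(1/π) CT μ` and, for `z ∈ Kᶜ`, `ψ j (f z) = [t^j] (∑ t^i ψ i z)^n + a j`.

IDEA. Approximate `μ` by smooth `m k` with supports shrinking to `K`. For smooth `m` let `ps m 0 = id`, `ps m (j+1) = Ct (m · ∂ ps m j)` (`Ct` = Cauchy transform with `∂̄ Ct h = h`), `P j = [t^j] (∑ t^i ps m i)^n`, `g j = ps m j ∘ f - P j`, `e j = ∂̄ (g j)`.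
Leibniz: `∂̄ P (j+1) = m ∂ P j`, so `e (j+1) = δ (j+1) + m ∂ g j` with `δ (j+1) = (m(f) conj f' - m f')(∂ ps m j)(f)`; `g j = const + Ct (e j)`, and `‖∂ Ct h‖₂ = ‖h‖₂`, so `‖e (j+1)‖₂ ≤ ‖δ (j+1)‖₂ + ‖e j‖₂`. For `m = m k`, `k → ∞`, all `δ j → 0` in `L²` (dominated convergence), so all
`e j → 0` in `L²`, and on `Kᶜ` everything converges.

RULES. File `Pool/Agent/<seat>/NLS/XX.lean`, `import Pool.Agent.helper78.NLS.Spec` (and any proved module you want to use), `set_option autoImplicit false`, `open Complex Metric Set Filter Topology MeasureTheory MPS`, `open Pool.Agent.helper98.ILF Pool.Agent.helper16.Multibrot`,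
`noncomputable section`, `namespace NLS`, `theorem XX (h : YY_stmt) ... : XX_stmt`. Any other statement of this file and of BR, MPS, NLF (proved projects) may be a hypothesis (no circles). Auxiliary lemmas are prefixed `XX_`. No `sorry`, no double quotes in comments. Report a false statement to helper78 at once.
-/

set_option autoImplicit false

open Complex Metric Set Filter Topology MeasureTheory MPS
open Pool.Agent.helper98.ILF Pool.Agent.helper16.Multibrot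

noncomputable section

namespace NLS

/-! ## Definitions -/

/-- `∂/∂z̄` (the same as `BR.dbar`). -/
def db (φ : ℂ → ℂ) (z : ℂ) : ℂ := (fderiv ℝ φ z 1 + I * fderiv ℝ φ z I) / 2

/-- `∂/∂z`. -/
def dd (φ : ℂ → ℂ) (z : ℂ) : ℂ := (fderiv ℝ φ z 1 - I * fderiv ℝ φ z I) / 2

/-- smooth functions. -/
def Sm (φ : ℂ → ℂ) : Prop := ContDiff ℝ (⊤ : ℕ∞) φ

/-- smooth functions which vanish for `‖z‖ ≥ R`. -/
structure Sc (R : ℝ) (φ : ℂ → ℂ) : Prop where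
  sm : Sm φ
  supp : ∀ z, R ≤ ‖z‖ → φ z = 0

/-- the Cauchy transform `(1/π) ∫ h(w)/(z-w)`, written as a convolution. -/
def Ct (h : ℂ → ℂ) (z : ℂ) : ℂ := (1 / Real.pi) * ∫ w : ℂ, h (z - w) / w

/-- the map. -/
def ff (n : ℕ) (c z : ℂ) : ℂ := z ^ n + c

/-- the coefficients of the formal solution for the smooth Beltrami form `m`. -/
def ps (m : ℂ → ℂ) : ℕ → ℂ → ℂ
  | 0 => fun z => z
  | j + 1 => Ct (fun z => m z * dd (ps m j) z)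

/-- `hp m j = m · ∂ (ps m j)`, so that `ps m (j+1) = Ct (hp m j)` and `hp m 0 = m`. -/
def hp (m : ℂ → ℂ) (j : ℕ) (z : ℂ) : ℂ := m z * dd (ps m j) z

/-- `Pc a m j = [t^j] (∑ a i t^i)^m`. -/
def Pc (a : ℕ → ℂ) : ℕ → ℕ → ℂ
  | 0, j => if j = 0 then 1 else 0
  | m + 1, j => ∑ i ∈ Finset.range (j + 1), Pc a m i * a (j - i)

/-- `P j = [t^j] (∑ t^i ps m i)^n`. -/
def PP (n : ℕ) (m : ℂ → ℂ) (j : ℕ) (z : ℂ) : ℂ := Pc (fun i => ps m i z) n j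

/-- `g j = ps m j ∘ f - P j`. -/
def gg (n : ℕ) (c : ℂ) (m : ℂ → ℂ) (j : ℕ) (z : ℂ) : ℂ := ps m j (ff n c z) - PP n m j z

/-- `δ (j+1) = (m(f) conj f' - m f') (∂ ps m j)(f)`. -/
def de (n : ℕ) (c : ℂ) (m : ℂ → ℂ) (j : ℕ) (z : ℂ) : ℂ :=
  (m (ff n c z) * (starRingEnd ℂ) (fd n z) - m z * fd n z) * dd (ps m j) (ff n c z)

/-- the symmetry of Beltrami forms. -/
def Sy (n : ℕ) (m : ℂ → ℂ) : Prop := ∀ z, m (om n * z) = om n ^ 2 * m z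

/-! ## Calculus -/

/-- ALG: rules. PROOF. Product and chain rule for `fderiv ℝ`; `f` is complex differentiable: `fderiv ℝ (ff n c) z v = fd n z * v`, and a real linear map `L : ℂ → ℂ` is `L v = a v + b conj v` with `a = (L 1 - I L I)/2`, `b = (L 1 + I L I)/2`.
The commutation `db (dd u) = dd (db u)` is the symmetry of the second derivative (`ContDiffAt.isSymmSndFDerivAt`). Smoothness: `ContDiff.fderiv_right`, `ContDiff.clm_apply`. -/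
def ALG_stmt : Prop := (∀ u v : ℂ → ℂ, Sm u → Sm v → Sm (fun z => u z + v z) ∧ Sm (fun z => u z - v z) ∧ Sm (fun z => u z * v z) ∧
    (∀ z, db (fun z => u z + v z) z = db u z + db v z ∧ dd (fun z => u z + v z) z = dd u z + dd v z) ∧
    (∀ z, db (fun z => u z - v z) z = db u z - db v z ∧ dd (fun z => u z - v z) z = dd u z - dd v z) ∧
    ∀ z, db (fun z => u z * v z) z = db u z * v z + u z * db v z ∧ dd (fun z => u z * v z) z = dd u z * v z + u z * dd v z) ∧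
  (∀ u : ℂ → ℂ, Sm u → Sm (db u) ∧ Sm (dd u) ∧ (∀ z, db (dd u) z = dd (db u) z) ∧ Sm (fun z => (starRingEnd ℂ) (u z)) ∧
    ∀ z, dd (fun z => (starRingEnd ℂ) (u z)) z = (starRingEnd ℂ) (db u z) ∧ db (fun z => (starRingEnd ℂ) (u z)) z = (starRingEnd ℂ) (dd u z)) ∧
  (∀ (n : ℕ) (c : ℂ) (u : ℂ → ℂ), Sm u → Sm (fun z => u (ff n c z)) ∧ (∀ z, db (fun z => u (ff n c z)) z = db u (ff n c z) * (starRingEnd ℂ) (fd n z)) ∧
    ∀ z, dd (fun z => u (ff n c z)) z = dd u (ff n c z) * fd n z) ∧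
  (∀ (a : ℂ) (u : ℂ → ℂ), Sm u → Sm (fun z => u (a * z)) ∧ (∀ z, db (fun z => u (a * z)) z = (starRingEnd ℂ) a * db u (a * z)) ∧ ∀ z, dd (fun z => u (a * z)) z = a * dd u (a * z)) ∧
  (∀ (a : ℂ) (u : ℂ → ℂ), Sm u → Sm (fun z => a * u z) ∧ (∀ z, db (fun z => a * u z) z = a * db u z) ∧ ∀ z, dd (fun z => a * u z) z = a * dd u z) ∧
  (Sm (fun z => z) ∧ ∀ z : ℂ, dd (fun z : ℂ => z) z = 1 ∧ db (fun z : ℂ => z) z = 0) ∧
  (∀ a : ℂ, Sm (fun _ : ℂ => a) ∧ ∀ z : ℂ, dd (fun _ : ℂ => a) z = 0 ∧ db (fun _ : ℂ => a) z = 0) ∧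
  (∀ (u : ℂ → ℂ) (z : ℂ), DifferentiableAt ℝ u z → db u z = 0 → DifferentiableAt ℂ u z ∧ deriv u z = dd u z) ∧
  (∀ (u : ℂ → ℂ) (z : ℂ), DifferentiableAt ℂ u z → db u z = 0 ∧ dd u z = deriv u z) ∧
  ∀ (R : ℝ) (u : ℂ → ℂ), Sc R u → Sc R (db u) ∧ Sc R (dd u) ∧ Continuous u ∧ HasCompactSupport u

/-- CTS: the Cauchy transform of a smooth function with compact support. Uses ALG.
PROOF. `w ↦ 1/w` is locally integrable on `ℂ` (`MPS.MI_stmt` or polar coordinates), so `Ct h` is a convolution: `HasCompactSupport.contDiff_convolution_right`/`_left`, `HasCompactSupport.hasFDerivAt_convolution_right` (derivatives fall on `h`). The last formula: substitution `w ↦ z - w`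
(`integral_sub_left_eq_self`). -/
def CTS_stmt : Prop := (∀ z : ℂ, ∀ R : ℝ, IntegrableOn (fun w : ℂ => 1 / ‖z - w‖) (ball 0 R)) ∧ ∀ (R : ℝ) (h : ℂ → ℂ), Sc R h → Sm (Ct h) ∧ (∀ z, dd (Ct h) z = Ct (dd h) z) ∧ (∀ z, db (Ct h) z = Ct (db h) z) ∧
  (∀ z, Ct h z = (1 / Real.pi) * ∫ w : ℂ, h w / (z - w)) ∧ ∀ z, Integrable (fun w : ℂ => h w / (z - w))

/-- CTP: `∂̄ Ct h = h`. Uses CTS, ALG, `BR.CPF_stmt`. PROOF. `db (Ct h) z = Ct (db h) z = (1/π) ∫ db h w/(z - w) = h z` by CPF (`∫ dbar φ ζ/(ζ - z) = -π φ z`; `db = BR.dbar` by `rfl`). -/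
def CTP_stmt : Prop := ∀ (R : ℝ) (h : ℂ → ℂ), Sc R h → ∀ z, db (Ct h) z = h z

/-- CTG: growth at infinity. Uses ALG, CTS.
PROOF. For `‖z‖ ≥ 2R`, `‖w‖ ≤ R`: `1/‖z-w‖ ≤ 2/‖z‖`. `dd (Ct h) z = (1/π) ∫ dd h w (1/(z-w) - 1/z)` as `∫ dd h = 0` (integral of a derivative of a function with compact support, `integral_fderiv..` or Fubini), and `‖1/(z-w) - 1/z‖ ≤ 2R/‖z‖²`. For `‖z‖ ≤ 2R` continuity on a compact set. -/
def CTG_stmt : Prop := ∀ (R : ℝ) (h : ℂ → ℂ), 0 < R → Sc R h → ∃ C : ℝ, 0 ≤ C ∧ ∀ z : ℂ, ‖Ct h z‖ ≤ C / (1 + ‖z‖) ∧ ‖dd (Ct h) z‖ ≤ C / (1 + ‖z‖) ^ 2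

/-- CTL: `L²` bound off the support. Uses CTS.
PROOF. `‖Ct h z‖ ≤ (1/π) ∫ ‖h w‖/‖z - w‖ ≤ (1/(π d)) ∫_(ball 0 R) ‖h‖ ≤ (1/(π d)) √(π R²) ‖h‖₂ ≤ (R/d) ‖h‖₂` (Cauchy-Schwarz). Here `h` need not be smooth: it is stated for `(1/π) ∫ h w/(z-w)`. Also integrability. -/
def CTL_stmt : Prop := ∀ (R d : ℝ) (h : ℂ → ℂ) (z : ℂ), 0 < R → 0 < d → MemLp h 2 volume → (∀ w, R ≤ ‖w‖ → h w = 0) → (∀ w, h w ≠ 0 → d ≤ ‖z - w‖) →
  Integrable (fun w : ℂ => h w / (z - w)) ∧ ‖((1 / Real.pi : ℝ) : ℂ) * ∫ w : ℂ, h w / (z - w)‖ ≤ R / d * (eLpNorm h 2 volume).toReal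

/-- ISO: the isometry. Uses ALG, CTS, CTP, CTG.
PROOF. `g = Ct h`. Integration by parts (`integral_mul_fderiv_eq_neg_fderiv_mul_of_integrable` for the directions `1`, `I`; integrability: `g = O(1/(1+‖z‖))`, `dd g = O(1/(1+‖z‖)²)`, also `dd (dd g) = dd (Ct (dd h)) = O(1/(1+‖z‖)²)`, `db (dd g) = dd h` compactly supported):
`∫ dd g · conj (dd g) = -∫ g · dd (conj (dd g)) = -∫ g · conj (db (dd g)) = -∫ g · conj (dd h)` and `∫ h conj h = ∫ db g · conj h = -∫ g · db (conj h) = -∫ g · conj (dd h)`. (`‖g‖‖dd g‖ ≤ C/(1+‖z‖)³` is integrable on `ℂ`, `integrable_one_add_norm`.) -/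
def ISO_stmt : Prop := ∀ (R : ℝ) (h : ℂ → ℂ), 0 < R → Sc R h → MemLp h 2 volume ∧ MemLp (dd (Ct h)) 2 volume ∧ eLpNorm (dd (Ct h)) 2 volume = eLpNorm h 2 volume

/-- ROT: symmetry. Uses ALG, CTS. PROOF. Substitution `w = om w'` (a rotation preserves Lebesgue measure: `LinearIsometryEquiv.measurePreserving` with `rotation`), `‖om n‖ = 1`. Induction on `j` for `ps`:
`ps m j (om z) = om ps m j z`, hence `dd (ps m j) (om z) = dd (ps m j) z` and `hp m j (om z) = om² hp m j z`. -/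
def ROT_stmt : Prop := ∀ n : ℕ, 1 ≤ n → (∀ (R : ℝ) (h : ℂ → ℂ), Sc R h → (∀ z, h (om n * z) = om n ^ 2 * h z) → ∀ z, Ct h (om n * z) = om n * Ct h z) ∧
  (∀ (R : ℝ) (h : ℂ → ℂ), Sc R h → (∀ z, h (om n * z) = om n * h z) → ∀ z, Ct h (om n * z) = Ct h z)

/-- LIO: symmetric entire functions of small growth are constant.
PROOF. Taylor coefficients `a_m` at `0`: `a_m (om^m - 1) = 0` so `a_m = 0` for `0 < m < n`; Cauchy's estimate: `a_m = 0` for `m ≥ n`. (Or: `(E z - E 0)/z^n` extends to an entire function tending to `0`.) -/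
def LIO_stmt : Prop := ∀ (n : ℕ) (E : ℂ → ℂ) (C : ℝ), 1 ≤ n → Differentiable ℂ E → (∀ z, ‖E z‖ ≤ C * (1 + ‖z‖) ^ (n - 1)) → (∀ z, E (om n * z) = E z) → ∀ z, E z = E 0

/-- REP: representation. Uses ALG, CTS, CTP, CTG, ROT, LIO.
PROOF. `E = g - Ct (db g)`: `db E = 0`, so `E` is entire; `E (om z) = E z` (`db g (om z) = om db g z` from ALG: `conj om = 1/om`); `‖Ct‖ ≤ C`. LIO. -/
def REP_stmt : Prop := ∀ (n : ℕ) (R C : ℝ) (g : ℂ → ℂ), 1 ≤ n → 0 < R → Sm g → (∀ z, R ≤ ‖z‖ → db g z = 0) → (∀ z, ‖g z‖ ≤ C * (1 + ‖z‖) ^ (n - 1)) → (∀ z, g (om n * z) = g z) →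
  ∃ a : ℂ, ∀ z, g z = a + Ct (db g) z

/-- CHV: change of variables in `L²`. Uses `MPS.MCV_stmt`, `NLF.NB_stmt` (both proved: helper43/MP/MCV, helper16/NL/NB).
PROOF. MCV with `F y = ‖u(f y) fd n y‖²` (first for measurable `u`), `K = univ`: `∑_j F(y_j)/‖fd y_j‖² = n ‖u z‖²` for `z ≠ c`. So `∫⁻ ‖u(f y) fd n y‖² = n ∫⁻ ‖u‖²`, and `√n ≤ n`. The preimage of a null set is a null set off `0`: from MCV with `F` = indicator of the preimage. -/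
def CHV_stmt : Prop := ∀ (n : ℕ) (c : ℂ), 1 ≤ n → (∀ N : Set ℂ, volume N = 0 → volume {z | ff n c z ∈ N} = 0) ∧
  ∀ u : ℂ → ℂ, AEStronglyMeasurable u volume → AEStronglyMeasurable (fun z => u (ff n c z) * fd n z) volume ∧
    eLpNorm (fun z => u (ff n c z) * fd n z) 2 volume ≤ n * eLpNorm u 2 volume

/-- MOL: symmetric mollification.
PROOF. `μ_ε = μ ⋆ (normed ContDiffBump of radii ε/2, ε)`: smooth (`HasCompactSupport.contDiff_convolution_..`), `‖μ_ε‖ ≤ 1`, `μ_ε z ≠ 0` implies `dist(z,K) < ε`, and `μ_ε → μ` a.e. (`ContDiffBump.ae_convolution_tendsto_right_of_locallyIntegrable`). `m k z = (1/n) ∑_(i<n) om^(-2i) μ_ε(om^i z)`, `ε = 1/(k+1)`;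
`om K = K` (from `hK`), `om^n = 1`; a.e. convergence to `(1/n) ∑ om^(-2i) μ(om^i z) = μ z` (rotations preserve null sets). -/
def MOL_stmt : Prop := ∀ (n : ℕ) (K : Set ℂ) (μ : ℂ → ℂ), 1 ≤ n → IsClosed K → K.Nonempty → (∀ z, z ∈ K ↔ om n * z ∈ K) → K ⊆ ball 0 4 → Measurable μ → (∀ z, ‖μ z‖ ≤ 1) → (∀ z, μ z ≠ 0 → z ∈ K) →
  (∀ᵐ z : ℂ, μ (om n * z) = om n ^ 2 * μ z) →
  ∃ m : ℕ → ℂ → ℂ, (∀ k, Sc 5 (m k) ∧ Sy n (m k) ∧ ∀ z, ‖m k z‖ ≤ 1) ∧ (∀ k z, m k z ≠ 0 → infDist z K ≤ 1 / ((k : ℝ) + 1)) ∧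
    ∀ᵐ z : ℂ, Tendsto (fun k => m k z) atTop (𝓝 (μ z))

/-! ## The formal solution for smooth forms -/

/-- PSP: properties of `ps`. Uses ALG, CTS, CTP, CTG, ISO, ROT.
PROOF. Induction on `j`. `hp m j` is smooth with support in the one of `m`; norms: `‖hp m (j+1)‖₂ ≤ ‖dd (Ct (hp m j))‖₂ = ‖hp m j‖₂` (ISO), `‖hp m 0‖₂ = ‖m‖₂`. -/
def PSP_stmt : Prop := ∀ (n : ℕ) (R : ℝ) (m : ℂ → ℂ), 1 ≤ n → 0 < R → Sc R m → (∀ z, ‖m z‖ ≤ 1) →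
  (∀ j, Sm (ps m j) ∧ Sc R (hp m j) ∧ (∀ z, m z = 0 → hp m j z = 0) ∧ (∀ z, db (ps m (j + 1)) z = hp m j z) ∧ eLpNorm (hp m j) 2 volume ≤ eLpNorm m 2 volume ∧
    ∃ C : ℝ, 0 ≤ C ∧ ∀ z, ‖ps m (j + 1) z‖ ≤ C / (1 + ‖z‖)) ∧
  (∀ z, hp m 0 z = m z ∧ db (ps m 0) z = 0) ∧
  (Sy n m → ∀ j z, ps m j (om n * z) = om n * ps m j z)

/-- PCB: bounds and homogeneity for `Pc` (pure).
PROOF. Induction on `m`. (3): every product in `[t^j] (∑ a i t^i)^m`, `j ≥ 1`, `m ≥ 1`, has at least one factor `a i` with `i ≥ 1`: prove together `‖Pc a m 0‖ = ‖a 0‖^m`. -/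
def PCB_stmt : Prop := (∀ (a : ℕ → ℂ) (M : ℝ) (m j : ℕ), 0 ≤ M → (∀ i, ‖a i‖ ≤ M) → ‖Pc a m j‖ ≤ M ^ m * ((j : ℝ) + 1) ^ m) ∧
  (∀ (a : ℕ → ℂ) (b : ℂ) (m j : ℕ), Pc (fun i => b * a i) m j = b ^ m * Pc a m j) ∧
  (∀ (a : ℕ → ℂ) (A M : ℝ) (m j : ℕ), 0 ≤ M → 0 ≤ A → ‖a 0‖ ≤ A → (∀ i, 1 ≤ i → i ≤ j → ‖a i‖ ≤ M) → 1 ≤ m → 1 ≤ j →
    ‖Pc a m j‖ ≤ (A + M) ^ (m - 1) * M * ((j : ℝ) + 1) ^ m) ∧
  (∀ (a : ℕ → ℂ) (m : ℕ), Pc a m 0 = a 0 ^ m) ∧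
  (∀ (a b : ℕ → ℂ) (m j : ℕ), (∀ i ≤ j, a i = b i) → Pc a m j = Pc b m j) ∧
  ∀ (m j : ℕ) (x : ℕ → ℕ → ℂ) (a : ℕ → ℂ), (∀ i, Tendsto (fun k => x k i) atTop (𝓝 (a i))) → Tendsto (fun k => Pc (x k) m j) atTop (𝓝 (Pc a m j))

/-- LBZ: Leibniz. Uses ALG, PSP.
PROOF. Induction on `m` (the exponent) for `Pm m j z = Pc (fun i => ps μ i z) m j`: smooth, `db (Pm m 0) = 0`, `db (Pm m (j+1)) = μ dd (Pm m j)`: `Pm (m+1) j = ∑_(i ≤ j) Pm m i · ps (j-i)`; `db (Pm (m+1) (j+1)) = ∑_(i ≤ j+1) (db (Pm m i) ps (j+1-i) + Pm m i db (ps (j+1-i)))`; the terms `i = 0` resp. `i = j+1` vanish, shift the index. -/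
def LBZ_stmt : Prop := ∀ (n : ℕ) (R : ℝ) (m : ℂ → ℂ), 0 < R → Sc R m → (∀ z, ‖m z‖ ≤ 1) → (∀ j, Sm (PP n m j)) ∧ (∀ z, db (PP n m 0) z = 0) ∧ ∀ j z, db (PP n m (j + 1)) z = m z * dd (PP n m j) z

/-- ERR: the error. Uses ALG, PSP, PCB, LBZ, REP, ISO.
PROOF. `db (gg (j+1)) z = hp m j (f z) conj(fd n z) - m z dd (PP n m j) z`, `hp m j (f z) = m(f z) dd (ps m j)(f z)`, `dd (PP n m j) z = dd (ps m j)(f z) fd n z - dd (gg j) z`. So (1). The support: `m (f z) ≠ 0` implies `‖f z‖ < R`, and `‖f z‖ ≥ ‖z‖` if `‖z‖ ≥ R ≥ 4` (`‖c‖ ≤ 3`).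
(2): REP: symmetric (PSP, PCB (2), `om^n = 1`, `f (om z) = f z`), growth (PCB (3), PSP; `gg 0 = c` constant). (3): `dd (gg j) = dd (Ct (db (gg j)))`, ISO. -/
def ERR_stmt : Prop := ∀ (n : ℕ) (c : ℂ) (R : ℝ) (m : ℂ → ℂ), 2 ≤ n → ‖c‖ ≤ 3 → 4 ≤ R → Sc R m → Sy n m → (∀ z, ‖m z‖ ≤ 1) →
  (∀ j, Sc R (db (gg n c m j)) ∧ Sm (gg n c m j)) ∧ (∀ z, gg n c m 0 z = c) ∧
  (∀ j z, db (gg n c m (j + 1)) z = de n c m j z + m z * dd (gg n c m j) z) ∧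
  (∀ j z, db (gg n c m j) z ≠ 0 → m z ≠ 0 ∨ m (ff n c z) ≠ 0) ∧
  (∀ j, ∃ a : ℂ, ∀ z, gg n c m j z = a + Ct (db (gg n c m j)) z) ∧
  ∀ j, eLpNorm (db (gg n c m (j + 1))) 2 volume ≤ eLpNorm (de n c m j) 2 volume + eLpNorm (db (gg n c m j)) 2 volume

/-! ## The limit -/

/-- L2C: convergence in `L²`. Uses ALG, CTS, PSP, ISO.
PROOF. `H 0 = μ`: dominated convergence (`‖m k - μ‖ ≤ 2` on `ball 0 5`, zero outside). Step: `dd (ps (m k) (j+1)) = dd (Ct (hp (m k) j))` is Cauchy in `L²` (ISO for the difference, `Ct` is additive on `Sc 5`), so it converges to some `s (j+1) ∈ L²` (completeness of `Lp`).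
`hp (m k) (j+1) = m k · dd (ps (m k) (j+1))`, `H (j+1) := μ · s (j+1)`: `‖m k (dd ps - s)‖₂ ≤ ‖dd ps - s‖₂ → 0` and `‖(m k - μ) s‖₂ → 0` by dominated convergence (a.e. convergence, `‖(m k - μ) s‖ ≤ 2 ‖s‖`). Norm: limit of `‖hp (m k) j‖₂ ≤ ‖m k‖₂`. -/
def L2C_stmt : Prop := ∀ (m : ℕ → ℂ → ℂ) (μ : ℂ → ℂ), Measurable μ → (∀ z, ‖μ z‖ ≤ 1) → (∀ z, 4 ≤ ‖z‖ → μ z = 0) → (∀ k, Sc 5 (m k) ∧ ∀ z, ‖m k z‖ ≤ 1) → (∀ᵐ z : ℂ, Tendsto (fun k => m k z) atTop (𝓝 (μ z))) →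
  ∃ H s : ℕ → ℂ → ℂ, H 0 = μ ∧ (∀ j, Measurable (H j) ∧ MemLp (H j) 2 volume ∧ Measurable (s j)) ∧ (∀ z, s 0 z = 1) ∧ (∀ j, MemLp (s (j + 1)) 2 volume) ∧
    (∀ j z, H j z = μ z * s j z) ∧ (∀ j, eLpNorm (H j) 2 volume ≤ eLpNorm μ 2 volume) ∧
    (∀ j, Tendsto (fun k => eLpNorm (fun z => hp (m k) j z - H j z) 2 volume) atTop (𝓝 0)) ∧
    (∀ j, Tendsto (fun k => eLpNorm (fun z => dd (ps (m k) (j + 1)) z - s (j + 1) z) 2 volume) atTop (𝓝 0))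

/-- DEL: the errors tend to zero. Uses L2C, CHV, ALG, PSP.
PROOF. For `z ∈ ball 0 5` (outside `de = 0`): with `q k z = m k (f z) conj(fd n z) - m k z fd n z`, `‖q k z‖ ≤ 2 ‖fd n z‖`, `q k z → μ(f z) conj(fd n z) - μ z fd n z = 0` a.e. (CHV for the null set; invariance `inv`). `j = 0`: `de = q k` on `ball 0 5`: dominated convergence.
`j ≥ 1`: `de = q k (dd (ps (m k) j)(f z) - s j (f z)) + q k s j (f z)`; the first part is `≤ 2 ‖(dd ps - s j)(f z) fd n z‖`, CHV; the second is dominated by `2 ‖s j (f z) fd n z‖ ∈ L²` and tends to `0` a.e. -/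
def DEL_stmt : Prop := ∀ (n : ℕ) (c : ℂ) (m : ℕ → ℂ → ℂ) (μ : ℂ → ℂ), 2 ≤ n → ‖c‖ ≤ 3 → Measurable μ → (∀ z, ‖μ z‖ ≤ 1) → (∀ z, 4 ≤ ‖z‖ → μ z = 0) → (∀ k, Sc 5 (m k) ∧ ∀ z, ‖m k z‖ ≤ 1) →
  (∀ᵐ z : ℂ, Tendsto (fun k => m k z) atTop (𝓝 (μ z))) → (∀ᵐ z : ℂ, μ (z ^ n + c) * (starRingEnd ℂ) (fd n z) / fd n z = μ z) →
  ∀ j, Tendsto (fun k => eLpNorm (de n c (m k) j) 2 volume) atTop (𝓝 0)

/-- EPS: `‖∂̄ g j‖₂ → 0`. Uses ERR, DEL, ALG. PROOF. Induction on `j`: `gg 0 = c` is constant; ERR (last claim) and DEL; squeeze. -/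
def EPS_stmt : Prop := ∀ (n : ℕ) (c : ℂ) (m : ℕ → ℂ → ℂ) (μ : ℂ → ℂ), 2 ≤ n → ‖c‖ ≤ 3 → Measurable μ → (∀ z, ‖μ z‖ ≤ 1) → (∀ z, 4 ≤ ‖z‖ → μ z = 0) → (∀ k, Sc 5 (m k) ∧ Sy n (m k) ∧ ∀ z, ‖m k z‖ ≤ 1) →
  (∀ᵐ z : ℂ, Tendsto (fun k => m k z) atTop (𝓝 (μ z))) → (∀ᵐ z : ℂ, μ (z ^ n + c) * (starRingEnd ℂ) (fd n z) / fd n z = μ z) →
  ∀ j, Tendsto (fun k => eLpNorm (db (gg n c (m k) j)) 2 volume) atTop (𝓝 0)

/-- OFS: convergence off the set `K`. Uses CTL, CTS.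
PROOF. `2 d = infDist z K > 0`; for `1/(k+1) ≤ d` the functions `h k` vanish on `ball z d` (`infDist w K ≥ 2d - ‖z-w‖`), and `H` vanishes a.e. off `K`. CTL for `h k - H` (replace `H` by `0` off `K`). -/
def OFS_stmt : Prop := ∀ (K : Set ℂ) (h : ℕ → ℂ → ℂ) (H : ℂ → ℂ), IsClosed K → K.Nonempty → K ⊆ ball 0 4 → (∀ k, Sc 5 (h k)) → (∀ k z, h k z ≠ 0 → infDist z K ≤ 1 / ((k : ℝ) + 1)) → MemLp H 2 volume → (∀ z, H z ≠ 0 → z ∈ K) →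
  Tendsto (fun k => eLpNorm (fun z => h k z - H z) 2 volume) atTop (𝓝 0) →
  ∀ z ∉ K, Tendsto (fun k => Ct (h k) z) atTop (𝓝 ((1 / Real.pi) * ∫ w : ℂ, H w / (z - w)))

/-- HOL: the limit functions are holomorphic off `K`.
PROOF. `hasDerivAt_integral_of_dominated_loc_of_deriv_le`: near `z ∉ K` the integrand `H w/(z-w)` has derivative `-H w/(z-w)²`, bounded by `‖H w‖/d²`, and `H ∈ L² ` with bounded support is integrable. -/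
def HOL_stmt : Prop := ∀ (K : Set ℂ) (H : ℂ → ℂ), IsClosed K → K ⊆ ball 0 4 → MemLp H 2 volume → (∀ z, H z ≠ 0 → z ∈ K) →
  DifferentiableOn ℂ (fun z : ℂ => (1 / Real.pi : ℂ) * ∫ w : ℂ, H w / (z - w)) Kᶜ

/-- SHK: the supports of the errors shrink to `K`. 
PROOF. For `z` with `m k (f z) ≠ 0`: `infDist (f z) K ≤ 1/(k+1)`. Given `d > 0` there is `k₀` such that for `k ≥ k₀` this implies `infDist z K ≤ d`: otherwise a sequence `z_k`, `‖z_k‖ ≤ 5`, `infDist z_k K ≥ d`, `infDist (f z_k) K → 0`; a limit point `z` has `f z ∈ K`, so `z ∈ K`: contradiction. -/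
def SHK_stmt : Prop := ∀ (n : ℕ) (c : ℂ) (K : Set ℂ), 2 ≤ n → ‖c‖ ≤ 3 → IsClosed K → K.Nonempty → K ⊆ ball 0 4 → (∀ z, z ∈ K ↔ z ^ n + c ∈ K) → ∀ d > (0 : ℝ), ∃ e > (0 : ℝ), ∀ z : ℂ, infDist (z ^ n + c) K ≤ e → infDist z K ≤ d

/-- FEQ: THE FUNCTIONAL EQUATION. Uses MOL, PSP, PCB, ERR, L2C, EPS, OFS, CTL, HOL, SHK, `BR.BAS_stmt` (or helper98 ILF/Poly: `f⁻¹ filled = filled`).
PROOF. `K = filled n c`; `μ (om z) = om² μ z` a.e. from the invariance at `z` and `om z` (`f (om z) = f z`, `fd n (om z) = om^(n-1) fd n z`). MOL: `m k`; L2C: `H, s`. `ψ 0 = id`, `ψ (j+1) z = (1/π) ∫ H j w/(z-w)` for `z ∉ K`. OFS: `ps (m k) j z → ψ j z` for `z ∉ K` (`hp (m k) j` vanishes where `m k` does).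
`gg n c (m k) j z = a_k + Ct (e_k) z` (ERR), `Ct (e_k) z → 0` for `z ∉ K` (CTL with `d = infDist z K/2`, supports: ERR and SHK; EPS). So for two points `z, z' ∉ K`: `gg .. z - gg .. z' → 0`; and `gg n c (m k) j z → ψ j (f z) - Pc (fun i => ψ i z) n j` (`f z ∉ K`; PCB (6)). So the limit does not depend on `z`: `a j`. `a 0 = c` (ERR).
Bound: CTL with `d = infDist z K`, `R = 4`. Symmetry: limit of PSP. `ψ 1`: `H 0 = μ`. -/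
def FEQ_stmt : Prop := ∀ (n : ℕ) (c : ℂ) (μ : ℂ → ℂ), 2 ≤ n → ‖c‖ ≤ 3 → IsCompact (filled n c) → (filled n c).Nonempty → filled n c ⊆ ball 0 4 → (∀ z, z ∈ filled n c ↔ z ^ n + c ∈ filled n c) →
  Measurable μ → (∀ z, ‖μ z‖ ≤ 1) → (∀ z, μ z ≠ 0 → z ∈ filled n c) → (∀ᵐ z : ℂ, μ (z ^ n + c) * (starRingEnd ℂ) (fd n z) / fd n z = μ z) →
  ∃ (ψ : ℕ → ℂ → ℂ) (a : ℕ → ℂ) (M : ℝ), (∀ z, ψ 0 z = z) ∧ a 0 = c ∧ 0 ≤ M ∧ (∀ j, DifferentiableOn ℂ (ψ j) (filled n c)ᶜ) ∧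
    (∀ j, 1 ≤ j → ∀ z ∉ filled n c, ‖ψ j z‖ ≤ M / infDist z (filled n c)) ∧
    (∀ j, ∀ z ∉ filled n c, ψ j (om n * z) = om n * ψ j z) ∧
    (∀ z ∉ filled n c, ψ 1 z = (1 / Real.pi) * ∫ w : ℂ, μ w / (z - w)) ∧
    ∀ j, ∀ z ∉ filled n c, ψ j (z ^ n + c) = Pc (fun i => ψ i z) n j + a j

end NLS
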